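import Mathlib
import Pool.Agent.H55.Ssp

namespace Pool.Agent.Results.MP_13df43_gt.NoStationary

open Pool.Agent.H55.Ssp Filter Topology

/-- A Hausdorff (abelian) topological group in which countable subgroups have compact closure and
player P has no stationary winning strategy in the game `Ssp`. -/
theorem result : ∃ (G : Type) (_ : AddCommGroup G) (_ : TopologicalSpace G),
    IsTopologicalAddGroup G ∧ T2Space G ∧
    (∀ H : AddSubgroup G, (H : Set G).Countable → IsCompact (closure (H : Set G))) ∧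
    ¬ ∃ s : {U : Set G // IsOpen U ∧ U.Nonempty} → G, (∀ U, s U ∈ U.1) ∧
      ∀ U : ℕ → {U : Set G // IsOpen U ∧ U.Nonempty}, ∃ φ : ℕ → ℕ, StrictMono φ ∧
        ∃ x : G, Tendsto (fun k => s (U (φ k))) atTop (𝓝 x) := by
  refine ⟨G, inferInstance, inferInstance, inferInstance, inferInstance,
    fun H hH => compact_closure _ hH, ?_⟩
  rintro ⟨s, hs, hwin⟩
  obtain ⟨a, ha⟩ := bad (fun a => s ⟨U a, U_open a, U_ne a⟩) fun a => hs ⟨U a, U_open a, U_ne a⟩
  obtain ⟨φ, hφ, x, hx⟩ := hwin fun n => ⟨U (a n), U_open _, U_ne _⟩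
  exact ha φ hφ x hx

end Pool.Agent.Results.MP_13df43_gt.NoStationary
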